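import Pool.Agent.J6H13.RW.Early

/-!
# The first prime patterns with long runs of composites on both sides appear as early as the known bound for `p(g)`

Shanks: the first prime `p(g)` which is preceded by `g` composite numbers should be of size `exp (√g)`. The best
bound known is `log p(g) ≤ C g (log₂ g)² / ((log g)² log₃ g)` (iterated logarithms; starting files). We consider the
primes together with the runs of composites on BOTH sides and prescribe the shape of the cluster of primes between
the two runs: for a set `S` of natural numbers let `n` be the first integer `n ≡ a (mod q)` for which the primes at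
distance at most `g` from `n` are exactly the numbers `n + q y`, `y ∈ S`.

There are absolute constants `c > 0` and `C` such that for every `k` the following holds for EVERY sufficiently large
finite set `V` of natural numbers and ALL large `g`: for some `s` between `k` and `C k` at least the proportion
`(c P / s) ^ s` of the `s`-element subsets `S` of `V` are such that this `n` satisfies the bound above,
`log n ≤ C₁ g (log₂ g)² / ((log g)² log₃ g)`, where `C₁` depends on `k` only. Here `P` is the product of `1 - 1 / p`
over the primes `p ≤ s` which do not divide the squarefree number `q`.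

Proof. The Maynard-Tao theorem inside the windows of the record sieve with arbitrary weights of the pairs
(`Pool.Agent.J6H13.RW.stRW`) at the scale which belongs to `g`; the positions for the primes are found, at every
scale, by a localised coloured Maynard-Tao theorem (`Pool.Agent.Y827.RO.lamR0`, starting files); Erdős' box lemma.
-/

set_option autoImplicit false

open Finset Filter

namespace Pool.Agent.Results.MP_926cc3_nt.FirstIsolatedPatterns

/-- for some `n ≡ a` modulo `q` with `n ≥ 2 g` and `log n ≤ C₁ g (log₂ g)² / ((log g)² log₃ g)` the primes at
distance at most `g` from `n` are exactly the numbers `n + q s`, `s ∈ S` -/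
def Early (C₁ : ℝ) (g q a : ℕ) (S : Finset ℕ) : Prop :=
  ∃ n : ℕ, 2 * g ≤ n ∧ Real.log n ≤ C₁ * g * (Real.log (Real.log g)) ^ 2 /
      ((Real.log g) ^ 2 * Real.log (Real.log (Real.log g))) ∧ n ≡ a [MOD q] ∧
    ∀ y : ℤ, |y| ≤ g → (((n : ℤ) + y).toNat.Prime ↔ ∃ s ∈ S, y = q * s)

/-- the product of `1 - 1 / p` over the primes `p ≤ s` which do not divide `q` -/
noncomputable def density (s q : ℕ) : ℝ :=
  ∏ p ∈ (range (s + 1)).filter (fun p => p.Prime ∧ ¬ p ∣ q), (1 - 1 / (p : ℝ))

open Classical in
/-- the number of the `s`-element subsets `S` of `V` with this property -/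
noncomputable def number (C₁ : ℝ) (g q a s : ℕ) (V : Finset ℕ) : ℕ :=
  ((V.powersetCard s).filter (fun S => Early C₁ g q a S)).card

/-- There are `c > 0` and `C` such that for every `k ≥ 1` there are `N` and `C₁` with the following property: for
all squarefree `q`, all `a` coprime to `q`, every set `V` of at least `N` natural numbers and all large `g` there is
`s` with `k ≤ s ≤ C k` such that at least the proportion `(c P / s) ^ s` of the `s`-element subsets `S` of `V`,
`P = density s q`, occur early as isolated patterns of primes. -/
theorem result : ∃ (c : ℝ) (C : ℕ), 0 < c ∧ ∀ k : ℕ, 1 ≤ k → ∃ (N : ℕ) (C₁ : ℝ),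
    ∀ q a : ℕ, Squarefree q → a.Coprime q → ∀ V : Finset ℕ, N ≤ V.card → ∃ G : ℕ, ∀ g : ℕ, G ≤ g →
      ∃ s : ℕ, k ≤ s ∧ s ≤ C * k ∧
        (c * density s q / s) ^ s * ((V.card).choose s : ℝ) ≤ number C₁ g q a s V :=
  Pool.Agent.J6H13.RW.early_main

end Pool.Agent.Results.MP_926cc3_nt.FirstIsolatedPatterns
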