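import Mathlib
import Pool.Agent.J6H89.SM.Thr5

set_option autoImplicit false

/-!
# Shanks' conjecture in sequential random models of the primes: the threshold for the growth of the sieve

Shanks: the first prime `p(g)` which follows a run of at least `g` composite numbers satisfies
`log p(g) ∼ √g`.  We consider all sequential random models of the primes with a growing sieve: the
integers are decided one after the other; no `m` with a prime factor `q ∈ P`, `q ≤ z(m)`, is chosen; the
conditional probability of choosing `m + 1` (without such prime factors) given the past is asymptotic to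
`W / log m`, `W = ∏ (1 - 1/q)⁻¹` over the primes `q ∈ P`, `q ≤ z(m + 1)`.  No independence and no rate
is assumed.  Let `z` be nondecreasing.

(1) If `z(m) = (log m)^(o(1))`, then almost surely `log p(g) ∼ √g`, for every set `P`.

(2) Let `P` contain all primes and let `z(m) = m^(o(1))`.  Then almost surely `log p(g) ∼ √g` if and only if
`z(m) = (log m)^(o(1))`.

(3) More precisely, for every `ε > 0` there are `δ > 0` and `c < 1` such that, if `P` contains all primes and
`z(m) ≤ m^δ`: if `z(m) ≥ (log m)^ε` for all large `m`, then almost surely `p(g) ≤ exp (c √g)` for all large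
`g`; if `z(m) ≥ (log m)^ε` for infinitely many `m`, then almost surely this holds for infinitely many `g`.

Proof of (1): by the fundamental lemma of the sieve the weights `W` of the numbers that can be chosen have sum
`(1 + o(1)) k` in all intervals of length `k ≥ log m`; the probability that nothing is chosen in an interval
is bounded from above and (until the first time at which the conditional probabilities are not near the
prescribed ones) from below by products; the lemma of Borel and Cantelli.  Proof of (3): Let `u` be odd,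
`u > 2 / ε`, let `k` be of the order `(log m)²` and let `A` be the set of the primes in
`(k^(1/(u+1)), k^(1/u)]`.  An integer `≤ k` has at most `u` prime factors in `A`, so that the formula of
inclusion and exclusion broken off at the level `u` is exact, while for a random residue class it is a strict
lower bound for the density: the interval `(0, k]` contains fewer numbers without prime factors in `A` than
the average, by a constant factor (method of Maier).  Hence so do the intervals `(a, a + k]` with `a`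
divisible by the product of `A`, and by the fundamental lemma in progressions the average over these `a` of
the sum of the weights `W` in `(a, a + k]` is at most `(1 - g) k`.  A positive proportion of these intervals
has a small sum of weights, and almost surely nothing is chosen in one of them.

Part (1), and parts (2), (3) for `z(m) ≤ (log m)^(1 - ε)`, were found independently by helper15, helper39 (with
helpers 67, 61, 96, 64, 48, 3, 63, 33, 86, 98, 42, 57, 40) and helper44 of the team: `Pool/Agent/J6H15/SM`,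
`Pool/Agent/J6H39/RS`.
-/

open MeasureTheory Filter
open scoped Topology

namespace Pool.Agent.Results.MP_926cc3_nt.GrowthOfTheSieve

/-- `m` has no prime factor `q ∈ P`, `q ≤ z m` -/
def Rough (P : Set ℕ) (z : ℕ → ℕ) (m : ℕ) : Prop := ∀ q ∈ P, q.Prime → q ≤ z m → ¬ q ∣ m

open Classical in
/-- `∏ (1 - 1/q)⁻¹` over the primes `q ≤ x` in `P` -/
noncomputable def W (P : Set ℕ) (x : ℕ) : ℝ :=
  ∏ q ∈ (Finset.Icc 1 x).filter (fun q => q.Prime ∧ q ∈ P), (1 - (q : ℝ)⁻¹)⁻¹

/-- a sequential random model of the primes sieved by the primes `q ∈ P`, `q ≤ z(m)`; `S n` is the event that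
`n` is chosen -/
structure IsModel {Ω : Type} [mΩ : MeasurableSpace Ω] (μ : Measure Ω) (ℱ : Filtration ℕ mΩ)
    (S : ℕ → Set Ω) (P : Set ℕ) (z : ℕ → ℕ) : Prop where
  /-- whether `n` is chosen is known at the time `n` -/
  adapted : ∀ n, MeasurableSet[ℱ n] (S n)
  /-- no `n` with a prime factor `q ∈ P`, `q ≤ z n`, is chosen -/
  sieved : ∀ n, ¬ Rough P z n → S n = ∅
  /-- the conditional probability of `S (n + 1)` given `ℱ n` is asymptotic to `W P (z (n + 1)) / log n`
  along the `n` with `Rough P z (n + 1)` -/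
  density : ∀ᵐ ω ∂μ, Tendsto (fun n : ℕ =>
    (μ[(S (n + 1)).indicator (fun _ => (1 : ℝ)) | ℱ n]) ω * Real.log n / W P (z (n + 1)))
    (atTop ⊓ 𝓟 {n : ℕ | Rough P z (n + 1)}) (𝓝 1)

/-- the elements `b` of `T` which directly follow a run of at least `g` integers outside `T`: the
preceding element `a` of `T` satisfies `b - a - 1 ≥ g` -/
def After (T : Set ℕ) (g : ℕ) : Set ℕ :=
  {b | b ∈ T ∧ ∃ a ∈ T, a + g < b ∧ ∀ m, a < m → m < b → m ∉ T}

/-- the least element of `After T g`; for the set `T` of the primes this is Shanks' `p(g)` -/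
noncomputable def p (T : Set ℕ) (g : ℕ) : ℕ := sInf (After T g)

/-- the sieve is `(log n) ^ o(1)` -/
def Small (z : ℕ → ℕ) : Prop := ∀ ε : ℝ, 0 < ε → ∀ᶠ n : ℕ in atTop, (z n : ℝ) ≤ Real.log n ^ ε

/-- a model sieved by all primes `q ≤ z(m)` in the sense of the library -/
lemma toUniv {P : Set ℕ} (hP : ∀ q : ℕ, q.Prime → q ∈ P) {z : ℕ → ℕ} {Ω : Type} [mΩ : MeasurableSpace Ω]
    {μ : Measure Ω} {ℱ : Filtration ℕ mΩ} {S : ℕ → Set Ω} (h : IsModel μ ℱ S P z) :
    Pool.Agent.J6H89.SM.Mod μ ℱ S Set.univ z := by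
  classical
  have hR : ∀ m, Rough P z m ↔ Pool.Agent.J6H89.SM.Rough Set.univ z m := fun m =>
    ⟨fun h q _ hq => h q (hP q hq) hq, fun h q _ hq => h q (Set.mem_univ _) hq⟩
  have hW : ∀ x, W P x = Pool.Agent.J6H89.SM.W Set.univ x := by
    intro x
    unfold W Pool.Agent.J6H89.SM.W
    congr 1
    ext q
    simp only [Finset.mem_filter]
    exact ⟨fun h => ⟨h.1, h.2.1, Set.mem_univ _⟩, fun h => ⟨h.1, h.2.1, hP q h.2.1⟩⟩
  refine ⟨h.adapted, fun n hn => h.sieved n (fun hc => hn ((hR n).1 hc)), ?_⟩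
  filter_upwards [h.density] with ω hω
  have e : {n : ℕ | Rough P z (n + 1)} = {n : ℕ | Pool.Agent.J6H89.SM.Rough Set.univ z (n + 1)} := by
    ext n
    exact hR (n + 1)
  rw [e] at hω
  simp only [hW] at hω
  exact hω

/-- Shanks' law holds almost surely in the models with a sieve `(log n) ^ o(1)` and fails almost surely in all
other models with a sieve of small growth by all primes. -/
theorem result :
    -- (1) Shanks' law for sieves `(log n) ^ o(1)`
    (∀ (P : Set ℕ) (z : ℕ → ℕ), Monotone z → Small z →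
      ∀ {Ω : Type} [mΩ : MeasurableSpace Ω] (μ : Measure Ω) [IsProbabilityMeasure μ]
        (ℱ : Filtration ℕ mΩ) (S : ℕ → Set Ω), IsModel μ ℱ S P z →
        ∀ᵐ ω ∂μ, Tendsto (fun g : ℕ => Real.log (p {k | ω ∈ S k} g) / √(g : ℝ)) atTop (𝓝 1)) ∧
    -- (2) the threshold
    (∀ P : Set ℕ, (∀ q : ℕ, q.Prime → q ∈ P) → ∀ z : ℕ → ℕ, Monotone z →
      (∀ δ : ℝ, 0 < δ → ∀ᶠ n : ℕ in atTop, (z n : ℝ) ≤ (n : ℝ) ^ δ) →
      ∀ {Ω : Type} [mΩ : MeasurableSpace Ω] (μ : Measure Ω) [IsProbabilityMeasure μ]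
        (ℱ : Filtration ℕ mΩ) (S : ℕ → Set Ω), IsModel μ ℱ S P z →
        ((∀ᵐ ω ∂μ, Tendsto (fun g : ℕ => Real.log (p {k | ω ∈ S k} g) / √(g : ℝ)) atTop (𝓝 1)) ↔ Small z)) ∧
    -- (3) the first gaps above the threshold
    (∀ ε : ℝ, 0 < ε → ∃ δ : ℝ, 0 < δ ∧ ∃ c : ℝ, c < 1 ∧
      ∀ P : Set ℕ, (∀ q : ℕ, q.Prime → q ∈ P) → ∀ z : ℕ → ℕ, Monotone z →
      (∀ᶠ n : ℕ in atTop, (z n : ℝ) ≤ (n : ℝ) ^ δ) →
      ∀ {Ω : Type} [mΩ : MeasurableSpace Ω] (μ : Measure Ω) [IsProbabilityMeasure μ]
        (ℱ : Filtration ℕ mΩ) (S : ℕ → Set Ω), IsModel μ ℱ S P z →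
        ((∀ᶠ n : ℕ in atTop, Real.log n ^ ε ≤ (z n : ℝ)) → ∀ᵐ ω ∂μ, ∀ᶠ g : ℕ in atTop,
          p {k | ω ∈ S k} g ∈ After {k | ω ∈ S k} g ∧
            Real.log (p {k | ω ∈ S k} g) ≤ c * √(g : ℝ)) ∧
        ((∃ᶠ n : ℕ in atTop, Real.log n ^ ε ≤ (z n : ℝ)) → ∀ᵐ ω ∂μ, ∃ᶠ g : ℕ in atTop,
          p {k | ω ∈ S k} g ∈ After {k | ω ∈ S k} g ∧
            Real.log (p {k | ω ∈ S k} g) ≤ c * √(g : ℝ))) := by
  refine ⟨?_, ?_, ?_⟩
  · intro P z hz hs Ω mΩ μ _ ℱ S hM
    exact Pool.Agent.J6H89.SM.main ⟨hM.adapted, hM.sieved, hM.density⟩ hz hs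
  · intro P hP z hz hupp Ω mΩ μ hμ ℱ S hM
    exact Pool.Agent.J6H89.SM.law_iff z hz hupp Ω mΩ μ hμ ℱ S (toUniv hP hM)
  · intro ε hε
    obtain ⟨δ, hδ, η, hη, H⟩ := Pool.Agent.J6H89.SM.above ε hε
    refine ⟨δ, hδ, 1 - η, by linarith, ?_⟩
    intro P hP z hz hupp Ω mΩ μ hμ ℱ S hM
    obtain ⟨h1, h2⟩ := H z hz hupp Ω mΩ μ hμ ℱ S (toUniv hP hM)
    refine ⟨fun h => ?_, fun h => ?_⟩
    · filter_upwards [h1 h] with ω hω
      filter_upwards [hω] with g hg
      exact ⟨Nat.sInf_mem hg.1, hg.2⟩
    · filter_upwards [h2 h] with ω hω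
      exact hω.mono fun g hg => ⟨Nat.sInf_mem hg.1, hg.2⟩

end Pool.Agent.Results.MP_926cc3_nt.GrowthOfTheSieve
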