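import Pool.Agent.J6H10.LW.Rec

/-!
# Systems of record gaps with free choices from arithmetic progressions

Let `f(x) = log x (log₂ x)² log₄ x / (log₃ x)²`, the size of the largest gaps between consecutive primes that are
known to occur up to `x`. Let `d(a, c)`, `a, c = 0, 1, 2, …` be any positive reals with `d(a, c) → 0` as `a → ∞` for
every `c` (`a` is called the place and `c` the letter), and let `h` be any function. There are finite sets
`U_0, V_0 < U_1, V_1 < U_2, V_2 < …` of places, `V_i` nonempty and disjoint from `U_i`, and letters `κ(a)` for the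
places `a` in the sets `U_i`, such that, with

`x_i(c) = ∑_{a ∈ U_i} d(a, κ(a)) + ∑_{a ∈ V_i} d(a, c)`,

for ALL choices of letters `c_i ≤ h(i)` and all nonempty finite sets `F_0 < F_1 < … < F_{m-1}` of indices, far enough
out, the vector `ρ (x_{F_0}, …, x_{F_{m-1}})` of the sums `x_{F_l} = ∑_{i ∈ F_l} x_i(c_i)`, and the reversed vector,
are limit points of the vectors of `m` consecutive prime gaps divided by `f`; the dilation factor `ρ` is an arbitrary
positive function of the words (places and letters) of `k` further blocks which precede `F_0`.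

For `d(a, c) = (1 + c) δ_a` with any null sequence `δ` the numbers `x_i(0), …, x_i(h(i))` form an arithmetic
progression: every normalised gap can be chosen freely from an arithmetic progression of any prescribed length, and
from all the sumsets of finitely many of these progressions. If `d(a, c)` does not depend on `c`, this is the starting
result `MP_028722_nt.RecordSumSystem`. As there, the theorem holds for countably many functions `d_s`, dilation
functions, residue classes and SCALES at once, with the same sets and letters: the record function can be replaced by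
any slowly varying `H` with `log x ≤ H(x) = O(f(x))`, and if `H(x) = o(f(x))` the numbers need not tend to `0`.

Method: the Maynard-Tao theorem inside the record windows (in the form of `Pool.Agent.W126.RecSum` of the starting
files), and the infinite dimensional Ramsey theorem for closed families of block sequences of located words with
substitutions of `Pool.Agent.J6H10.LW`.
-/

open Filter Topology

set_option autoImplicit false

namespace Pool.Agent.Results.MP_926cc3_nt.RecordWordSystems

/-- The record scale `f(x) = log x (log₂ x)² log₄ x / (log₃ x)²` (iterated natural logarithms). -/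
noncomputable def f (x : ℝ) : ℝ :=
  Real.log x * (Real.log (Real.log x)) ^ 2 * Real.log (Real.log (Real.log (Real.log x))) /
    (Real.log (Real.log (Real.log x))) ^ 2

/-- The set of the vectors `v ∈ ℝ^m` such that for every `ε > 0` there are infinitely many `n` with
`p_(n+i) ≡ r (mod q)` for `0 ≤ i ≤ m` and `|(p_(n+i+1) - p_(n+i)) / H(p_n) - v i| < ε` for
`0 ≤ i < m` (`p_n` is the prime with index `n`): the limit points of the vectors of `m` consecutive
gaps divided by `H`, along blocks of `m + 1` consecutive primes in the class `r` modulo `q`. -/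
def LimitPoints (H : ℝ → ℝ) (m q r : ℕ) : Set (Fin m → ℝ) :=
  {v | ∀ ε : ℝ, 0 < ε → ∃ᶠ n : ℕ in atTop,
    (∀ i ≤ m, Nat.nth Nat.Prime (n + i) ≡ r [MOD q]) ∧
    ∀ i : Fin m, |((Nat.nth Nat.Prime (n + i + 1) : ℝ) - Nat.nth Nat.Prime (n + i)) /
      H (Nat.nth Nat.Prime n) - v i| < ε}

/-- the number `x_i(c) = ∑_{a ∈ U_i} d(a, κ(a)) + ∑_{a ∈ V_i} d(a, c)` -/
noncomputable def x (d : ℕ → ℕ → ℝ) (U V : ℕ → Finset ℕ) (κ : ℕ → ℕ) (i c : ℕ) : ℝ :=
  ∑ a ∈ U i, d a (κ a) + ∑ a ∈ V i, d a c

/-- the word of the blocks `i ∈ F` with the letters `c i`: the set of the pairs `(a, κ a)`, `a ∈ U i`, and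
`(a, c i)`, `a ∈ V i`, for `i ∈ F` -/
def word (U V : ℕ → Finset ℕ) (κ : ℕ → ℕ) (c : ℕ → ℕ) (F : Finset ℕ) : Finset (ℕ × ℕ) :=
  F.biUnion fun i => (U i).image (fun a => (a, κ a)) ∪ (V i).image (fun a => (a, c i))

/-- For every index `s` let `H s` be a slowly varying function with `log x ≤ H s x`, let `d s a c` be positive reals,
`q s` a squarefree modulus, `r s` a residue prime to it, and for every `k` let `ρ s k` be a positive function of `k`
finite sets of pairs. Suppose that `H s = o(f)`, or that `H s = O(f)` and `d s a c` tends to `0` as `a → ∞` for every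
`c`. Let `h` be any function. There are finite sets `U i`, `V i` with `V i` nonempty and disjoint from `U i` and with
`U i ∪ V i < U (i + 1) ∪ V (i + 1)`, and letters `κ a`, such that for all `s, k, m` there is `N` with: for all choices
of letters `c i ≤ h i` and all nonempty finite sets `N ≤ F_0 < F_1 < … < F_(k+m-1)` the vector of the sums of the
`x (d s) U V κ i (c i)` over `i ∈ F_(k+l)`, `0 ≤ l < m`, multiplied by `ρ s k` of the words of the first `k` blocks,
and the reversed vector, are limit points of the vectors of `m` consecutive prime gaps divided by `H s`, along the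
primes `≡ r s (mod q s)`. -/
theorem result (H : ℕ → ℝ → ℝ) (hlow : ∀ s, ∀ᶠ x : ℝ in atTop, Real.log x ≤ H s x)
    (hslow : ∀ s, ∀ ε : ℝ, 0 < ε → ∀ᶠ x : ℝ in atTop, ∀ t : ℝ, x ≤ t → t ≤ 4 * x →
      |H s x / H s t - 1| < ε)
    (d : ℕ → ℕ → ℕ → ℝ) (hd : ∀ s a c, 0 < d s a c)
    (hc : ∀ s, (∀ c : ℝ, 0 < c → ∀ᶠ x : ℝ in atTop, H s x ≤ c * f x) ∨
      ((∃ C : ℝ, ∀ᶠ x : ℝ in atTop, H s x ≤ C * f x) ∧
        ∀ c, Tendsto (fun a => d s a c) atTop (𝓝 0)))
    (q r : ℕ → ℕ) (hq : ∀ s, Squarefree (q s)) (hr : ∀ s, (r s).Coprime (q s))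
    (ρ : ℕ → ∀ k, (Fin k → Finset (ℕ × ℕ)) → ℝ) (hρ : ∀ s k P, 0 < ρ s k P) (h : ℕ → ℕ) :
    ∃ (U V : ℕ → Finset ℕ) (κ : ℕ → ℕ), (∀ i, (V i).Nonempty ∧ Disjoint (U i) (V i)) ∧
      (∀ i, ∀ a ∈ U i ∪ V i, ∀ b ∈ U (i + 1) ∪ V (i + 1), a < b) ∧
      ∀ s k m : ℕ, ∃ N : ℕ, ∀ (F : ℕ → Finset ℕ) (c : ℕ → ℕ), (∀ i, c i ≤ h i) →
        (∀ l < k + m, (F l).Nonempty) → (∀ l < k + m, ∀ i ∈ F l, N ≤ i) →
        (∀ l, l + 1 < k + m → ∀ i ∈ F l, ∀ i' ∈ F (l + 1), i < i') →
        (fun l : Fin m => ρ s k (fun l' => word U V κ c (F l')) *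
          ∑ i ∈ F (k + l), x (d s) U V κ i (c i)) ∈ LimitPoints (H s) m (q s) (r s) ∧
        (fun l : Fin m => ρ s k (fun l' => word U V κ c (F l')) *
          ∑ i ∈ F (k + (Fin.rev l : Fin m)), x (d s) U V κ i (c i)) ∈
            LimitPoints (H s) m (q s) (r s) :=
  Pool.Agent.J6H10.LW.main_recW h H (fun s => ⟨hlow s, hslow s⟩) d hd hc q r hq hr ρ hρ

end Pool.Agent.Results.MP_926cc3_nt.RecordWordSystems
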